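import Pool.Agent.Helper62.MU.St

set_option autoImplicit false

open MeasureTheory Metric Set Filter Topology Polynomial
open scoped RealInnerProductSpace ContDiff

namespace Pool.Agent.Helper15.MU

open Pool.Agent.Helper62.MU Pool.Agent.Helper62.Mink

private lemma sg_sq (x : ℝ) : sg x ^ 2 = 1 + x ^ 2 := by
  unfold sg
  exact Real.sq_sqrt (by positivity)

private lemma one_le_sg (x : ℝ) : 1 ≤ sg x := by
  unfold sg
  rw [Real.one_le_sqrt]
  nlinarith [sq_nonneg x]

private lemma sg_pos (x : ℝ) : 0 < sg x := lt_of_lt_of_le one_pos (one_le_sg x)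

private lemma sg_cont : Continuous sg := by
  unfold sg
  fun_prop

private lemma le_sg {x : ℝ} (_hx : 0 ≤ x) : x ≤ sg x := by
  unfold sg
  exact Real.le_sqrt_of_sq_le (by linarith [sq_nonneg x])

private lemma tau_mem {x : ℝ} (hx : 0 ≤ x) : x / sg x ∈ Icc (0 : ℝ) 1 :=
  ⟨div_nonneg hx (sg_pos x).le, by rw [div_le_one (sg_pos x)]; exact le_sg hx⟩

private lemma tau_mono {x y : ℝ} (hx : 0 ≤ x) (hxy : x ≤ y) : x / sg x ≤ y / sg y := by
  rw [div_le_div_iff₀ (sg_pos x) (sg_pos y)]
  have hy : 0 ≤ y := hx.trans hxy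
  have h1 : 0 ≤ y * sg x := mul_nonneg hy (sg_pos x).le
  refine le_of_sq_le_sq ?_ h1 |> fun h => h
  rw [mul_pow, mul_pow, sg_sq, sg_sq]
  nlinarith [mul_self_le_mul_self hx hxy]

private lemma w_le {m : ℕ} (hm : 1 ≤ m) (y : ℝ) : y ^ 2 / sg y ^ (m + 3) ≤ (1 + y ^ 2)⁻¹ := by
  have h1 : sg y ^ 4 ≤ sg y ^ (m + 3) := pow_le_pow_right₀ (one_le_sg y) (by omega)
  have h2 : sg y ^ 4 = (1 + y ^ 2) ^ 2 := by
    rw [← sg_sq]; ring
  have h3 : 0 < 1 + y ^ 2 := by positivity
  calc y ^ 2 / sg y ^ (m + 3) ≤ y ^ 2 / sg y ^ 4 :=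
        div_le_div_of_nonneg_left (sq_nonneg y) (pow_pos (sg_pos y) 4) h1
    _ = y ^ 2 / (1 + y ^ 2) ^ 2 := by rw [h2]
    _ ≤ (1 + y ^ 2)⁻¹ := by
        rw [div_le_iff₀ (by positivity)]
        have : (1 + y ^ 2)⁻¹ * (1 + y ^ 2) ^ 2 = 1 + y ^ 2 := by
          field_simp
        rw [this]
        linarith

private lemma w_nonneg (m : ℕ) (y : ℝ) : 0 ≤ y ^ 2 / sg y ^ (m + 3) :=
  div_nonneg (sq_nonneg y) (pow_pos (sg_pos y) _).le

private lemma w_le_sq (m : ℕ) (y : ℝ) : y ^ 2 / sg y ^ (m + 3) ≤ y ^ 2 :=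
  div_le_self (sq_nonneg y) (one_le_pow₀ (one_le_sg y))

private lemma ev_cont (q : ℝ[X]) : Continuous fun y : ℝ => q.eval (y / sg y) :=
  q.continuous.comp (continuous_id.div sg_cont fun y => (sg_pos y).ne')

private lemma w_cont (m : ℕ) : Continuous fun y : ℝ => y ^ 2 / sg y ^ (m + 3) :=
  (continuous_pow 2).div (sg_cont.pow _) fun y => (pow_pos (sg_pos y) _).ne'

theorem hTU : StTU := by
  intro m p hm hE hN
  obtain ⟨-, hder⟩ := hE
  have hanti : AntitoneOn (fun t : ℝ => p.eval t) (Icc 0 1) := by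
    refine antitoneOn_of_deriv_nonpos (convex_Icc 0 1) p.continuous.continuousOn
      p.differentiable.differentiableOn ?_
    intro t ht
    rw [interior_Icc] at ht
    rw [Polynomial.deriv]
    exact hder t ⟨ht.1.le, ht.2.le⟩
  set f : ℝ → ℝ := fun y => y ^ 2 * p.eval (y / sg y) / sg y ^ (m + 3) with hf
  set u : ℝ → ℝ := fun y => y ^ 2 * Aa m p y with hu
  have hfw : ∀ y, f y = y ^ 2 / sg y ^ (m + 3) * p.eval (y / sg y) := by
    intro y; simp only [hf]; ring
  have huw : ∀ y, u y = y ^ 2 / sg y ^ (m + 3) *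
      (p.eval (y / sg y) - y / sg y * p.derivative.eval (y / sg y)) := by
    intro y; simp only [hu, Aa]; ring
  have hfc : Continuous f := by
    have : f = fun y => y ^ 2 / sg y ^ (m + 3) * p.eval (y / sg y) := funext hfw
    rw [this]
    exact (w_cont m).mul (ev_cont p)
  have huc : Continuous u := by
    have : u = fun y => y ^ 2 / sg y ^ (m + 3) *
      (p.eval (y / sg y) - y / sg y * p.derivative.eval (y / sg y)) := funext huw
    rw [this]
    exact (w_cont m).mul ((ev_cont p).sub
      ((continuous_id.div sg_cont fun y => (sg_pos y).ne').mul (ev_cont p.derivative)))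
  obtain ⟨C1, hC1⟩ := (isCompact_Icc (a := (0 : ℝ)) (b := 1)).exists_bound_of_continuousOn
    (f := fun t : ℝ => p.eval t) p.continuous.continuousOn
  obtain ⟨C2, hC2⟩ := (isCompact_Icc (a := (0 : ℝ)) (b := 1)).exists_bound_of_continuousOn
    (f := fun t : ℝ => p.eval t - t * p.derivative.eval t)
    (p.continuous.sub (continuous_id.mul p.derivative.continuous)).continuousOn
  have hC2' : 0 ≤ C2 := (norm_nonneg _).trans (hC2 0 ⟨le_rfl, zero_le_one⟩)
  have hC1' : 0 ≤ C1 := (norm_nonneg _).trans (hC1 0 ⟨le_rfl, zero_le_one⟩)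
  have hfint : IntegrableOn f (Ioi 0) := by
    refine Integrable.mono' ((integrable_inv_one_add_sq.const_mul C1).integrableOn)
      hfc.aestronglyMeasurable ?_
    refine (ae_restrict_mem measurableSet_Ioi).mono fun y hy => ?_
    rw [hfw, norm_mul, Real.norm_of_nonneg (w_nonneg m y), mul_comm C1]
    exact mul_le_mul (w_le hm y) (hC1 _ (tau_mem (le_of_lt hy))) (norm_nonneg _) (by positivity)
  have hThe : ∀ x, Th m p x = ∫ y in (0 : ℝ)..x, f y := fun x => rfl
  have hUe : ∀ x, Uu m p x = ∫ y in (0 : ℝ)..x, u y := fun x => rfl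
  have hNf : ∫ y in Ioi (0 : ℝ), f y = 0 := hN
  refine ⟨?_, ?_, ?_⟩
  · intro x hx
    constructor
    · rcases le_or_gt 0 (p.eval (x / sg x)) with h | h
      · rw [hThe]
        refine intervalIntegral.integral_nonneg hx.le fun y hy => ?_
        rw [hfw]
        refine mul_nonneg (w_nonneg m y) (h.trans ?_)
        exact hanti (tau_mem hy.1) (tau_mem hx.le) (tau_mono hy.1 hy.2)
      · have hsum : (∫ y in (0 : ℝ)..x, f y) + ∫ y in Ioi x, f y = ∫ y in Ioi (0 : ℝ), f y := by
          rw [intervalIntegral.integral_of_le hx.le, ← Ioc_union_Ioi_eq_Ioi hx.le]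
          refine (setIntegral_union (Ioc_disjoint_Ioi le_rfl) measurableSet_Ioi ?_ ?_).symm
          · exact hfint.mono_set Ioc_subset_Ioi_self
          · exact hfint.mono_set (Ioi_subset_Ioi hx.le)
        have hneg : ∫ y in Ioi x, f y ≤ 0 := by
          refine setIntegral_nonpos measurableSet_Ioi fun y hy => ?_
          rw [hfw]
          have hy' : x ≤ y := le_of_lt hy
          refine mul_nonpos_of_nonneg_of_nonpos (w_nonneg m y) (le_trans ?_ h.le)
          exact hanti (tau_mem hx.le) (tau_mem (hx.le.trans hy')) (tau_mono hx.le hy')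
        rw [hThe]
        rw [hNf] at hsum
        linarith
    · rw [hThe, hUe]
      refine intervalIntegral.integral_mono_on hx.le (hfc.intervalIntegrable _ _)
        (huc.intervalIntegrable _ _) fun y hy => ?_
      rw [hfw, huw]
      refine mul_le_mul_of_nonneg_left ?_ (w_nonneg m y)
      have h1 := hder _ (tau_mem hy.1)
      have h2 := (tau_mem hy.1).1
      nlinarith
  · refine ⟨C2 * 2, fun x hx => ?_⟩
    have hub : ∀ y, 0 ≤ y → ‖u y‖ ≤ C2 * (y ^ 2 / sg y ^ (m + 3)) := by
      intro y hy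
      rw [huw, norm_mul, Real.norm_of_nonneg (w_nonneg m y), mul_comm C2]
      exact mul_le_mul_of_nonneg_left (hC2 _ (tau_mem hy)) (w_nonneg m y)
    constructor
    · rw [hUe]
      calc |∫ y in (0 : ℝ)..x, u y| ≤ ∫ y in (0 : ℝ)..x, C2 * (1 + y ^ 2)⁻¹ := by
            rw [← Real.norm_eq_abs]
            refine intervalIntegral.norm_integral_le_of_norm_le hx.le ?_ ?_
            · refine Filter.Eventually.of_forall fun y hy => ?_
              exact (hub y hy.1.le).trans (mul_le_mul_of_nonneg_left (w_le hm y) hC2')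
            · refine Continuous.intervalIntegrable ?_ _ _
              exact continuous_const.mul (Continuous.inv₀ (by fun_prop) fun y => by positivity)
        _ = C2 * (Real.arctan x - Real.arctan 0) := by
            rw [intervalIntegral.integral_const_mul, integral_inv_one_add_sq]
        _ ≤ C2 * 2 := by
            refine mul_le_mul_of_nonneg_left ?_ hC2'
            rw [Real.arctan_zero, sub_zero]
            have := Real.arctan_lt_pi_div_two x
            linarith [Real.pi_lt_four]
    · rw [hUe]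
      calc |∫ y in (0 : ℝ)..x, u y| ≤ ∫ y in (0 : ℝ)..x, C2 * y ^ 2 := by
            rw [← Real.norm_eq_abs]
            refine intervalIntegral.norm_integral_le_of_norm_le hx.le ?_ ?_
            · refine Filter.Eventually.of_forall fun y hy => ?_
              exact (hub y hy.1.le).trans (mul_le_mul_of_nonneg_left (w_le_sq m y) hC2')
            · refine Continuous.intervalIntegrable ?_ _ _
              fun_prop
        _ = C2 * ((x ^ 3 - 0 ^ 3) / 3) := by
            rw [intervalIntegral.integral_const_mul, integral_pow]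
            norm_num
        _ ≤ C2 * 2 * x ^ 3 := by
            have : 0 ≤ C2 * x ^ 3 := mul_nonneg hC2' (pow_nonneg hx.le 3)
            nlinarith
  · have h := intervalIntegral_tendsto_integral_Ioi (μ := volume) (f := f) (0 : ℝ) hfint tendsto_id
    rw [hNf] at h
    exact h

end Pool.Agent.Helper15.MU
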